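import Pool.Agent.Q193.RG.Iso
import Pool.Agent.Q193.RG.Exist

/-!
# The Smale horseshoe acts elliptically on the ray graph

A horseshoe map `f` fixes a vertex of the ray graph of its invariant Cantor set: the class of a
ray from `∞` to the fixed point of `f` in the lower strip, which comes from the lower left.
So `f` is not loxodromic, and its stable translation length is `0`.
-/

set_option autoImplicit false

open scoped Topology unitInterval OnePoint
open Filter Pool.Agent.Q193.RG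

namespace Pool.Agent.Results.MP_f98b29_gt.HorseshoeElliptic

theorem fixed_class {f : Plane ≃ₜ Plane} {a₀ b₀ a₁ b₁ c₀ d₀ c₁ d₁ : ℝ}
    (hf : IsHorseshoe f a₀ b₀ a₁ b₁ c₀ d₀ c₁ d₁) :
    ∃ v : RayClass (invSet f), rayIso f (image_invSet f) v = v := by
  obtain ⟨h1, h2, h3, h4, h5⟩ := hf.strips_h
  obtain ⟨g1, g2, g3, g4, g5⟩ := hf.strips_v
  have hx := fx_mem (by linarith : d₀ - c₀ < 1) g1 g2 (by linarith)
  have hy := fx_mem (by linarith : b₀ - a₀ < 1) h1 h2 (by linarith)
  have hx1 : fx c₀ d₀ < 1 := by linarith [hx.2]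
  have hy1 : fx a₀ b₀ < b₁ := by linarith [hy.2]
  set x₀ := fx c₀ d₀ with hx₀
  set y₀ := fx a₀ b₀ with hy₀
  have hC : invSet f ⊆ Set.Icc x₀ 1 ×ˢ Set.Icc y₀ b₁ := fun z hz =>
    ⟨⟨hf.x_ge hz, (invSet_subset_square hz).1.2⟩, hf.y_ge hz, hf.y_le hz⟩
  have hp : ((x₀, y₀) : Plane) ∈ invSet f := hf.fix_mem
  have hfp : f (x₀, y₀) = (x₀, y₀) := hf.map_fix
  have hfp' : f.symm (x₀, y₀) = (x₀, y₀) := by rw [Homeomorph.symm_apply_eq, hfp]
  have hd : IsRay (invSet f) (x₀, y₀) (diag hx1 hy1) := isRay_diag hx1 hy1 hC hp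
  let d : Ray (invSet f) := ⟨(x₀, y₀), diag hx1 hy1, hd⟩
  let e : Ray (invSet f) := mapRay f.symm (image_symm (image_invSet f)) d
  have he : IsRay (invSet f) (x₀, y₀) e.arc := by
    have := e.isRay
    have h6 : e.pt = (x₀, y₀) := hfp'
    rwa [h6] at this
  -- the arc `f⁻¹(d)` avoids the open box
  have hbox : ∀ t, ∀ z ∈ box x₀ 1 y₀ b₁, e.arc t ≠ (z : Sph) := by
    intro t z hz h
    change ext f.symm (diag hx1 hy1 t) = (z : Sph) at h
    have h7 : diag hx1 hy1 t = ((f z : Plane) : Sph) := by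
      rcases hc : diag hx1 hy1 t with _ | w
      · rw [hc] at h
        exact absurd h (by
          change (∞ : Sph) ≠ (z : Sph)
          exact (OnePoint.coe_ne_infty z).symm)
      · rw [hc] at h
        change ((f.symm w : Plane) : Sph) = (z : Sph) at h
        rw [OnePoint.coe_eq_coe, Homeomorph.symm_apply_eq] at h
        rw [← h]
        rfl
    rcases t.2.1.eq_or_lt with h0 | h0
    · have : t = 0 := Subtype.ext h0.symm
      rw [this, diag_zero] at h7
      exact OnePoint.coe_ne_infty _ h7.symm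
    · rw [diag_apply hx1 hy1 t h0, OnePoint.coe_eq_coe] at h7
      rcases hf.box_out hz with h8 | h8
      · have h9 := diag_fst (y₀ := y₀) (y₁ := b₁) hx1 t h0 t.2.2
        rw [h7] at h9
        exact absurd h8 (not_lt.2 h9)
      · have h9 := diag_snd (x₀ := x₀) (x₁ := 1) hy1 t h0 t.2.2
        rw [h7] at h9
        exact absurd h8 (not_lt.2 h9)
  have hiso : Isotopic d e := ⟨hfp'.symm, homotopicWith_diag hx1 hy1 hC he hbox⟩
  refine ⟨Quotient.mk (raySetoid (invSet f)) d, ?_⟩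
  have h10 : (Quotient.mk (raySetoid (invSet f)) d : RayClass (invSet f)) =
      Quotient.mk (raySetoid (invSet f)) e := Quotient.sound hiso
  conv_lhs => rw [h10]
  change Quotient.mk (raySetoid (invSet f)) (mapRay f (image_invSet f)
    (mapRay f.symm (image_symm (image_invSet f)) d)) = _
  rw [mapRay_mapRay_symm]

theorem tendsto_of_fixed {V : Type*} {G : SimpleGraph V} (φ : G ≃g G) {v w : V} (hv : φ v = v)
    (hw : G.Reachable v w) :
    Tendsto (fun n : ℕ => (G.dist w (φ^[n] w) : ℝ) / n) atTop (𝓝 0) := by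
  have hwalk : ∀ {a b : V}, G.Reachable a b →
      G.dist (φ a) (φ b) ≤ G.dist a b ∧ G.Reachable (φ a) (φ b) := by
    intro a b hab
    obtain ⟨p, hp⟩ := hab.exists_walk_length_eq_dist
    refine ⟨?_, ⟨p.map φ.toHom⟩⟩
    rw [← hp]
    have := SimpleGraph.dist_le (p.map φ.toHom)
    simpa using this
  have hn : ∀ n : ℕ, G.dist v (φ^[n] w) ≤ G.dist v w ∧ G.Reachable v (φ^[n] w) := by
    intro n
    induction n with
    | zero => exact ⟨le_rfl, hw⟩
    | succ n ih =>
      have h1 := hwalk ih.2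
      rw [hv] at h1
      rw [Function.iterate_succ_apply']
      exact ⟨h1.1.trans ih.1, h1.2⟩
  have hbound : ∀ n : ℕ, (G.dist w (φ^[n] w) : ℝ) ≤ 2 * G.dist v w := by
    intro n
    have h1 : G.dist w (φ^[n] w) ≤ G.dist w v + G.dist v (φ^[n] w) := by
      obtain ⟨p, hp⟩ := hw.symm.exists_walk_length_eq_dist
      obtain ⟨q, hq⟩ := (hn n).2.exists_walk_length_eq_dist
      rw [← hp, ← hq, ← SimpleGraph.Walk.length_append]
      exact SimpleGraph.dist_le _
    rw [SimpleGraph.dist_comm (u := w) (v := v)] at h1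
    have h2 := (hn n).1
    have h3 : G.dist w (φ^[n] w) ≤ 2 * G.dist v w := by omega
    exact_mod_cast h3
  have hlim : Tendsto (fun n : ℕ => (2 * (G.dist v w : ℝ)) / (n : ℝ)) atTop (𝓝 0) :=
    tendsto_const_div_atTop_nhds_zero_nat _
  refine squeeze_zero (fun n => by positivity) (fun n => ?_) hlim
  exact div_le_div_of_nonneg_right (hbound n) (Nat.cast_nonneg n)

/-- **The Smale horseshoe is elliptic.** For each horseshoe map `f` (there are such `f`) there is
a vertex `v` of the ray graph of its invariant set which is fixed by `f`; the stable translation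
length of `f` is zero at each vertex in the component of `v`, and `f` is not loxodromic. -/
theorem result :
    (∃ (f : Plane ≃ₜ Plane) (a₀ b₀ a₁ b₁ c₀ d₀ c₁ d₁ : ℝ),
      IsHorseshoe f a₀ b₀ a₁ b₁ c₀ d₀ c₁ d₁) ∧
    ∀ (f : Plane ≃ₜ Plane) (a₀ b₀ a₁ b₁ c₀ d₀ c₁ d₁ : ℝ),
      IsHorseshoe f a₀ b₀ a₁ b₁ c₀ d₀ c₁ d₁ →
      ∃ h : f '' invSet f = invSet f,
        (∃ v : RayClass (invSet f), rayIso f h v = v ∧
          ∀ w : RayClass (invSet f), (rayGraph (invSet f)).Reachable v w →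
            Tendsto (fun n : ℕ => ((rayGraph (invSet f)).dist w ((rayIso f h)^[n] w) : ℝ) / n)
              atTop (𝓝 0)) ∧
        ¬ IsLoxodromic (rayIso f h) := by
  refine ⟨⟨hs, _, _, _, _, _, _, _, _, hs_isHorseshoe⟩, ?_⟩
  intro f a₀ b₀ a₁ b₁ c₀ d₀ c₁ d₁ hf
  obtain ⟨v, hv⟩ := fixed_class hf
  refine ⟨image_invSet f, ⟨v, hv, fun w hw => tendsto_of_fixed _ hv hw⟩, ?_⟩
  intro hlox
  obtain ⟨τ, hτ, hlim⟩ := hlox v
  exact hτ.ne' (tendsto_nhds_unique hlim (tendsto_of_fixed _ hv (SimpleGraph.Reachable.refl v)))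

end Pool.Agent.Results.MP_f98b29_gt.HorseshoeElliptic
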